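import Mathlib

set_option autoImplicit false

namespace Pool.Agent.N92.TH

open NumberField IsDedekindDomain

/-- the preimage of a set under a surjective homomorphism of finite groups -/
theorem ncard_preimage {A B : Type*} [AddCommGroup A] [AddCommGroup B] [Finite A] [Finite B]
    (Φ : A →+ B) (hΦ : Function.Surjective Φ) (S : Set B) :
    (Φ ⁻¹' S).ncard * Nat.card B = S.ncard * Nat.card A := by
  classical
  have hfA : Fintype A := Fintype.ofFinite A
  have hfB : Fintype B := Fintype.ofFinite B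
  -- the fibres
  have hfib : ∀ b : B, (Finset.univ.filter (fun a => Φ a = b)).card =
      (Finset.univ.filter (fun a => Φ a = 0)).card := by
    intro b
    obtain ⟨a₀, rfl⟩ := hΦ b
    apply Finset.card_bij (fun a _ => a - a₀)
    · intro a ha
      simp only [Finset.mem_filter, Finset.mem_univ, true_and] at ha ⊢
      rw [map_sub, ha, sub_self]
    · intro a _ a' _ h
      exact sub_left_injective h
    · intro a ha
      simp only [Finset.mem_filter, Finset.mem_univ, true_and] at ha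
      refine ⟨a + a₀, ?_, by abel⟩
      simp only [Finset.mem_filter, Finset.mem_univ, true_and, map_add, ha, zero_add]
  set K := (Finset.univ.filter (fun a => Φ a = 0)).card with hK
  have key : ∀ S : Set B, (Φ ⁻¹' S).ncard = S.ncard * K := by
    intro S
    have h1 : (Φ ⁻¹' S).ncard = (Finset.univ.filter (fun a => Φ a ∈ S)).card := by
      rw [← Set.ncard_coe_finset]
      congr 1
      ext a; simp
    have h2 : S.ncard = (Finset.univ.filter (fun b => b ∈ S)).card := by
      rw [← Set.ncard_coe_finset]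
      congr 1
      ext a; simp
    rw [h1, h2, Finset.card_eq_sum_card_fiberwise (f := Φ) (t := Finset.univ.filter (fun b => b ∈ S))
      (by intro a ha; simpa using ha)]
    rw [Finset.sum_congr rfl (g := fun _ => K), Finset.sum_const, smul_eq_mul]
    intro b hb
    rw [Finset.mem_filter] at hb
    rw [← hfib b]
    congr 1
    ext a
    simp only [Finset.mem_filter, Finset.mem_univ, true_and]
    constructor
    · rintro ⟨_, h⟩; exact h
    · intro h; exact ⟨h ▸ hb.2, h⟩
  have h1 := key S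
  have h2 := key Set.univ
  rw [Set.preimage_univ, Set.ncard_univ, Set.ncard_univ] at h2
  rw [h1, h2]
  ring

/-- all but finitely many primes are unramified over `ℚ` -/
theorem unram_ae (L : Type) [Field L] [NumberField L] : ∃ D : 𝓞 L, D ≠ 0 ∧
    ∀ v : HeightOneSpectrum (𝓞 L), D ∉ v.asIdeal → ∀ p : ℕ, p.Prime → (p : 𝓞 L) ∉ v.asIdeal ^ 2 := by
  have h0 : differentIdeal ℤ (𝓞 L) ≠ ⊥ := differentIdeal_ne_bot
  obtain ⟨D, hD, hD0⟩ := Submodule.exists_mem_ne_zero_of_ne_bot h0
  refine ⟨D, hD0, ?_⟩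
  intro v hv p hp hmem
  apply hv
  have : (Ideal.span {(p : ℤ)}).IsMaximal := by
    have hpp : Prime (p : ℤ) := Nat.prime_iff_prime_int.mp hp
    exact ((Ideal.span_singleton_prime hpp.ne_zero).mpr hpp).isMaximal (by
      rw [Ne, Ideal.span_singleton_eq_bot]; exact hpp.ne_zero)
  have hne : (Ideal.span {(p : ℤ)}) ≠ ⊥ := by
    rw [Ne, Ideal.span_singleton_eq_bot]
    exact_mod_cast hp.ne_zero
  have h1 : v.asIdeal ^ 2 ∣ (Ideal.span {(p : ℤ)}).map (algebraMap ℤ (𝓞 L)) := by
    rw [Ideal.map_span, Set.image_singleton, Ideal.dvd_span_singleton]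
    simpa using hmem
  have h2 := pow_sub_one_dvd_differentIdeal ℤ v.asIdeal 2 hne h1
  rw [show 2 - 1 = 1 from rfl, pow_one, Ideal.dvd_iff_le] at h2
  exact h2 hD

/-- the integers modulo `p²` and the residue ring of an unramified prime of degree one -/
theorem cast_surj {L : Type} [Field L] [NumberField L] (v : HeightOneSpectrum (𝓞 L)) (p : ℕ)
    (hp : p.Prime) (hN : Ideal.absNorm v.asIdeal = p) (hcard : Nat.card (𝓞 L ⧸ v.asIdeal ^ 2) = p ^ 2)
    (hur : (p : 𝓞 L) ∉ v.asIdeal ^ 2) :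
    ∃ τ : ZMod (p ^ 2) →+* 𝓞 L ⧸ v.asIdeal ^ 2, Function.Surjective τ := by
  have hpm : (p : 𝓞 L) ∈ v.asIdeal := by
    have := Ideal.absNorm_mem v.asIdeal
    rwa [hN] at this
  have hchar : CharP (𝓞 L ⧸ v.asIdeal ^ 2) (p ^ 2) := by
    have hp2 : ((p ^ 2 : ℕ) : 𝓞 L ⧸ v.asIdeal ^ 2) = 0 := by
      have : ((p ^ 2 : ℕ) : 𝓞 L) ∈ v.asIdeal ^ 2 := by
        push_cast
        exact Ideal.pow_mem_pow hpm 2
      have h1 := Ideal.Quotient.eq_zero_iff_mem.mpr this
      rwa [map_natCast] at h1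
    obtain ⟨r, hr⟩ := CharP.exists (𝓞 L ⧸ v.asIdeal ^ 2)
    have h1 : r ∣ p ^ 2 := (CharP.cast_eq_zero_iff _ r _).mp hp2
    obtain ⟨j, hj, hrj⟩ := (Nat.dvd_prime_pow hp).mp h1
    have hpne : ((p : ℕ) : 𝓞 L ⧸ v.asIdeal ^ 2) ≠ 0 := by
      intro h
      apply hur
      rw [← Ideal.Quotient.eq_zero_iff_mem, map_natCast]
      exact h
    have hj2 : j = 2 := by
      by_contra hne
      have hj1 : j ≤ 1 := by omega
      have h2 : r ∣ p := by
        rw [hrj]
        calc p ^ j ∣ p ^ 1 := pow_dvd_pow p hj1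
          _ = p := pow_one p
      exact hpne ((CharP.cast_eq_zero_iff _ r _).mpr h2)
    have h3 : p ^ 2 = r := by rw [hrj, hj2]
    rw [h3]
    exact hr
  have hfin : Finite (𝓞 L ⧸ v.asIdeal ^ 2) := Nat.finite_of_card_ne_zero (by
    rw [hcard]; exact pow_ne_zero _ hp.ne_zero)
  have hft : Fintype (𝓞 L ⧸ v.asIdeal ^ 2) := Fintype.ofFinite _
  refine ⟨ZMod.castHom (dvd_refl (p ^ 2)) _, ?_⟩
  exact (ZMod.castHom_bijective (𝓞 L ⧸ v.asIdeal ^ 2) (by
    rw [← Nat.card_eq_fintype_card, hcard])).2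

end Pool.Agent.N92.TH
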