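import Pool.Agent.TH377.Sup.DensR
import Pool.Agent.N666.TM.Turan
import Pool.Agent.N92.TH.Base

set_option autoImplicit false

/-! # The good residue classes modulo the square of a prime number -/

namespace Pool.Agent.N92.TH

open Polynomial WithZero NumberField IsDedekindDomain Pool.Agent.W858.SF Pool.Agent.W858.SG
open Pool.Agent.TH377.Sup

universe v w

/-- the combinations of the elements `e j` with integral coefficients -/
def comb {R : Type} [CommRing R] {J : Type} [Fintype J] (e : J → R) {d : ℕ}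
    (x : Fin (d + 2) × J → ℤ) : Fin (d + 2) → R := fun i => ∑ j, (x (i, j) : R) * e j

/-- an element outside a maximal ideal is a unit modulo its square -/
theorem unit_sq {A : Type*} [CommRing A] (I : Ideal A) [hI : I.IsMaximal] (x : A) (hx : x ∉ I) :
    ∃ y : A, Ideal.Quotient.mk (I ^ 2) x * Ideal.Quotient.mk (I ^ 2) y = 1 := by
  obtain ⟨z, u, hu, hz⟩ := hI.exists_inv hx
  refine ⟨z * (1 + u), ?_⟩
  have h1 : x * (z * (1 + u)) - 1 = - u ^ 2 := by
    have : x * z = 1 - u := by rw [← hz]; ring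
    calc x * (z * (1 + u)) - 1 = (x * z) * (1 + u) - 1 := by ring
      _ = - u ^ 2 := by rw [this]; ring
  rw [← map_mul, ← sub_eq_zero, ← map_one (Ideal.Quotient.mk (I ^ 2)), ← map_sub,
    Ideal.Quotient.eq_zero_iff_mem, h1]
  exact neg_mem (Ideal.pow_mem_pow hu 2)

theorem exists_omega {R k : Type} [CommRing R] [Field k] [CharZero k] [Algebra R k]
    {L : Type} [Field L] [NumberField L] (P : R →+* L) (v : HeightOneSpectrum (𝓞 L))
    (hint : ∀ r, v.valuation L (P r) ≤ 1) (ψ : k →+* v.adicCompletion L)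
    (hψ : ∀ r, vv v (ψ (algebraMap R k r) - algebraMap L (v.adicCompletion L) (P r)) ≤ exp (-2))
    (h2 : (2 : 𝓞 L) ∉ v.asIdeal) (p : ℕ) (hp : p.Prime) (hN : Ideal.absNorm v.asIdeal = p)
    (hur : (p : 𝓞 L) ∉ v.asIdeal ^ 2) {J : Type} [Fintype J] [DecidableEq J] (e : J → R) (j₀ : J)
    (he : v.valuation L (P (e j₀)) = 1) (d : ℕ) (hd : 3 ≤ d) :
    ∃ Ω : Set (Fin (d + 2) × J → ZMod (p ^ 2)),
      (1 / (4 * d)) * (1 / (p : ℝ) - 1 / (p : ℝ) ^ 2) ≤ Pool.Agent.N666.TM.dens Ω ∧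
      ∀ x : Fin (d + 2) × J → ℤ, Pool.Agent.Y722.HS.red (p ^ 2) x ∈ Ω →
        Good.{v, w} k (comb e x) := by
  classical
  have hmax : v.asIdeal.IsMaximal := v.isMaximal
  have hfin := Pool.Agent.TH120.Sec.finite_sq v
  have hcard : Nat.card (𝓞 L ⧸ v.asIdeal ^ 2) = p ^ 2 := by
    rw [Pool.Agent.W417.SecC.D2.card_sq, hN]
  have hnz : NeZero (p ^ 2) := ⟨pow_ne_zero _ hp.ne_zero⟩
  obtain ⟨τ, hτ⟩ := cast_surj v p hp hN hcard hur
  -- approximations of the `P (e j)`
  have hY : ∀ j, ∃ y : 𝓞 L, v.valuation L (P (e j) - algebraMap (𝓞 L) L y) ≤ exp (-2) := by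
    intro j
    obtain ⟨y, hy⟩ := exists_int_near {v} (P (e j)) (fun u hu => by
      rw [Finset.mem_singleton] at hu
      rw [hu]; exact hint _)
    exact ⟨y, hy v (Finset.mem_singleton_self v)⟩
  choose Y hY using hY
  have hγ2 : (exp (-2) : ℤᵐ⁰) < 1 := by
    rw [← exp_zero, exp_lt_exp]
    omega
  have hYj : Y j₀ ∉ v.asIdeal := by
    intro h
    have h1 : v.valuation L (algebraMap (𝓞 L) L (Y j₀)) < 1 := by
      rw [HeightOneSpectrum.valuation_of_algebraMap]
      exact (v.intValuation_lt_one_iff_mem _).2 h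
    have h3 : P (e j₀) = (P (e j₀) - algebraMap (𝓞 L) L (Y j₀)) + algebraMap (𝓞 L) L (Y j₀) := by
      ring
    have h4 : v.valuation L (P (e j₀)) < 1 := by
      rw [h3]
      exact (Valuation.map_add _ _ _).trans_lt (max_lt ((hY j₀).trans_lt hγ2) h1)
    rw [he] at h4
    exact lt_irrefl _ h4
  obtain ⟨z, hz⟩ := unit_sq v.asIdeal (Y j₀) hYj
  -- the linear map
  let Φ : (Fin (d + 2) × J → ZMod (p ^ 2)) →+ (Fin (d + 2) → 𝓞 L ⧸ v.asIdeal ^ 2) :=
    { toFun := fun ρ i => ∑ j, τ (ρ (i, j)) * Ideal.Quotient.mk (v.asIdeal ^ 2) (Y j)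
      map_zero' := by
        funext i
        simp
      map_add' := by
        intro ρ ρ'
        funext i
        simp only [Pi.add_apply, map_add, add_mul, Finset.sum_add_distrib] }
  have hΦ : ∀ ρ i, Φ ρ i = ∑ j, τ (ρ (i, j)) * Ideal.Quotient.mk (v.asIdeal ^ 2) (Y j) :=
    fun _ _ => rfl
  have hΦs : Function.Surjective Φ := by
    intro b
    choose s hs using fun i => hτ (b i * Ideal.Quotient.mk (v.asIdeal ^ 2) z)
    refine ⟨fun x => if x.2 = j₀ then s x.1 else 0, ?_⟩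
    funext i
    rw [hΦ, Finset.sum_eq_single j₀]
    · simp only [if_true]
      rw [hs, mul_assoc, mul_comm (Ideal.Quotient.mk (v.asIdeal ^ 2) z), hz, mul_one]
    · intro j _ hj
      simp [hj]
    · intro h
      exact absurd (Finset.mem_univ _) h
  refine ⟨Φ ⁻¹' (GoodV v d), ?_, ?_⟩
  · -- the density
    have h1 := ncard_preimage Φ hΦs (GoodV v d)
    have hA : Nat.card (Fin (d + 2) × J → ZMod (p ^ 2)) =
        (p ^ 2) ^ Fintype.card (Fin (d + 2) × J) := by
      rw [Nat.card_fun, Nat.card_zmod, Nat.card_eq_fintype_card]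
    have hB : Nat.card (Fin (d + 2) → 𝓞 L ⧸ v.asIdeal ^ 2) = (p ^ 2) ^ (d + 2) := by
      rw [Nat.card_fun, hcard, Nat.card_fin]
    rw [hA, hB] at h1
    have h3 := badV_card v d hd
    rw [hN] at h3
    have h4 : (GoodV v d).ncard + ((GoodV v d)ᶜ).ncard = (p ^ 2) ^ (d + 2) := by
      rw [Set.ncard_add_ncard_compl, hB]
    have h4' : ((GoodV v d).ncard : ℝ) + (((GoodV v d)ᶜ).ncard : ℝ) = ((p : ℝ) ^ 2) ^ (d + 2) := by
      exact_mod_cast h4
    have h5 : (1 / (4 * d)) * (1 / (p : ℝ) - 1 / (p : ℝ) ^ 2) * ((p : ℝ) ^ 2) ^ (d + 2) ≤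
        ((GoodV v d).ncard : ℝ) := by
      have : (1 - (1 / (4 * d)) * (1 / (p : ℝ) - 1 / (p : ℝ) ^ 2)) * ((p : ℝ) ^ 2) ^ (d + 2) =
        ((p : ℝ) ^ 2) ^ (d + 2) -
          (1 / (4 * d)) * (1 / (p : ℝ) - 1 / (p : ℝ) ^ 2) * ((p : ℝ) ^ 2) ^ (d + 2) := by ring
      linarith
    have hp0 : (0 : ℝ) < p := by exact_mod_cast hp.pos
    unfold Pool.Agent.N666.TM.dens
    rw [le_div_iff₀ (by push_cast; positivity)]
    have h6 : (((Φ ⁻¹' (GoodV v d)).ncard : ℕ) : ℝ) * ((p : ℝ) ^ 2) ^ (d + 2) =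
        ((GoodV v d).ncard : ℝ) * ((p : ℝ) ^ 2) ^ Fintype.card (Fin (d + 2) × J) := by
      exact_mod_cast h1
    have h7 : (0 : ℝ) < ((p : ℝ) ^ 2) ^ (d + 2) := by positivity
    have h8 : (0 : ℝ) < ((p : ℝ) ^ 2) ^ Fintype.card (Fin (d + 2) × J) := by positivity
    push_cast
    apply le_of_mul_le_mul_right _ h7
    rw [h6]
    have h9 := mul_le_mul_of_nonneg_right h5 h8.le
    linarith
  · -- the members of the class
    intro x hx
    set y : Fin (d + 2) → 𝓞 L := fun i => ∑ j, (x (i, j) : 𝓞 L) * Y j with hy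
    have hred : Pool.Agent.TH120.Sec.red (v.asIdeal ^ 2) (d + 2) y ∈ GoodV v d := by
      have h1 : Φ (Pool.Agent.Y722.HS.red (p ^ 2) x) =
          Pool.Agent.TH120.Sec.red (v.asIdeal ^ 2) (d + 2) y := by
        funext i
        rw [hΦ]
        simp only [Pool.Agent.TH120.Sec.red, Pool.Agent.Y722.HS.red, hy, map_sum, map_mul,
          map_intCast]
      rw [← h1]
      exact hx
    have hcy : ∀ i, v.valuation L (P (comb e x i) - algebraMap (𝓞 L) L (y i)) ≤ exp (-2) := by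
      intro i
      have h1 : P (comb e x i) - algebraMap (𝓞 L) L (y i) =
          ∑ j, algebraMap (𝓞 L) L (x (i, j) : 𝓞 L) * (P (e j) - algebraMap (𝓞 L) L (Y j)) := by
        simp only [comb, hy, map_sum, map_mul, map_intCast]
        rw [← Finset.sum_sub_distrib]
        apply Finset.sum_congr rfl
        intro j _
        ring
      rw [h1]
      apply Valuation.map_sum_le
      intro j _
      rw [map_mul]
      calc v.valuation L (algebraMap (𝓞 L) L (x (i, j) : 𝓞 L)) *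
            v.valuation L (P (e j) - algebraMap (𝓞 L) L (Y j)) ≤ 1 * exp (-2) :=
            mul_le_mul' (HeightOneSpectrum.valuation_le_one v _) (hY j)
        _ = exp (-2) := one_mul _
    obtain ⟨g1, g2, g3⟩ := good_iff v d y hred
    have key := fun l hl hld => fine_embR.{0, v, w} v P ψ hint hψ h2 hd (comb e x) y hcy g1 g2 g3
      l hl hld
    obtain ⟨l0, hl0, hld0⟩ := Nat.exists_prime_and_dvd (show d ≠ 1 by omega)
    have key0 := key l0 hl0 hld0
    exact ⟨key0.1, key0.2.1, key0.2.2.1, fun l hl hld => (key l hl hld).2.2.2⟩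

end Pool.Agent.N92.TH
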