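import Pool.Agent.N666.TM.Diag

set_option autoImplicit false

/-! # Thin sequences and a local criterion modulo squares of primes -/

namespace Pool.Agent.N92.TH

open Finset Filter Pool.Agent.N666.TM Pool.Agent.Y722.HS

theorem thin_dens {ι : Type} [Fintype ι] [DecidableEq ι] {S : ℕ → Finset ℕ} {x : ℕ → ι → ℤ}
    {κ : ℝ} (hκ : 0 < κ)
    (hw : ∃ N₀ : ℕ, ∀ N : ℕ, N₀ ≤ N → ∀ H : ℕ, (H : ℝ) ≤ (N : ℝ) ^ κ → Well (S N) x H)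
    (G : (ι → ℤ) → Prop)
    (hG : ∀ B : ℝ, ∃ U : Finset ℕ, (∀ p ∈ U, p.Prime) ∧ ∃ Ω : ∀ p : ℕ, Set (ι → ZMod (p ^ 2)),
      B ≤ ∑ p ∈ U, dens (Ω p) ∧ ∀ p ∈ U, ∀ c : ι → ℤ, red (p ^ 2) c ∈ Ω p → G c)
    (ε : ℝ) (hε : 0 < ε) : ∃ N₀ : ℕ, ∀ N : ℕ, N₀ ≤ N →
      ({n : ℕ | n ∈ S N ∧ ¬ G (x n)}.ncard : ℝ) ≤ ε * (S N).card := by
  classical
  obtain ⟨N₁, hN₁⟩ := hw
  set ε' : ℝ := ε / 2 with hε'
  have hε'0 : 0 < ε' := by positivity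
  obtain ⟨U, hU, Ω, hμ, hΩ⟩ := hG (2 / ε')
  set y : ℕ := U.sup id + 1 with hy
  have hyU : ∀ p ∈ U, p ≤ y := fun p hp => by
    have := Finset.le_sup (f := id) hp
    simp only [id] at this
    omega
  have hev : ∀ᶠ N : ℕ in atTop, ((y ^ 4 + ⌈4 / ε'⌉₊ : ℕ) : ℝ) ≤ (N : ℝ) ^ κ := by
    have h1 : Tendsto (fun N : ℕ => (N : ℝ) ^ κ) atTop atTop :=
      (tendsto_rpow_atTop hκ).comp tendsto_natCast_atTop_atTop
    exact h1.eventually_ge_atTop _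
  obtain ⟨N₂, hN₂⟩ := eventually_atTop.mp hev
  refine ⟨max N₁ N₂, fun N hN => ?_⟩
  set H : ℕ := y ^ 4 + ⌈4 / ε'⌉₊ with hH
  have hws := hN₁ N ((le_max_left _ _).trans hN) H (hN₂ N ((le_max_right _ _).trans hN))
  have hμ0 : 0 < ∑ p ∈ U, dens (Ω p) := lt_of_lt_of_le (by positivity) hμ
  have h1 := turan hws U (fun p => p ^ 2) (fun p hp => Nat.pos_of_ne_zero (by
      have := (hU p hp).pos
      positivity)) (fun p hp p' hp' hne =>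
      Nat.Coprime.pow 2 2 ((Nat.coprime_primes (hU p hp) (hU p' hp')).mpr hne))
    (fun p hp p' hp' => by
      have a1 : p ^ 2 ≤ y ^ 2 := Nat.pow_le_pow_left (hyU p hp) 2
      have a2 : p' ^ 2 ≤ y ^ 2 := Nat.pow_le_pow_left (hyU p' hp') 2
      calc p ^ 2 * p' ^ 2 ≤ y ^ 2 * y ^ 2 := Nat.mul_le_mul a1 a2
        _ = y ^ 4 := by ring
        _ ≤ 2 * H + 1 := by omega)
    Ω _ rfl hμ0
  have h2 : 2 / (∑ p ∈ U, dens (Ω p)) ≤ ε' := by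
    rw [div_le_iff₀ hμ0]
    rw [div_le_iff₀ hε'0] at hμ
    linarith
  have h3 : (4 : ℝ) / (2 * H + 1) ≤ ε' := by
    have h4 : 4 / ε' ≤ (H : ℝ) := (Nat.le_ceil _).trans (by exact_mod_cast (by omega : ⌈4 / ε'⌉₊ ≤ H))
    rw [div_le_iff₀ hε'0] at h4
    rw [div_le_iff₀ (by positivity)]
    nlinarith
  have hsub : {n : ℕ | n ∈ S N ∧ ¬ G (x n)} ⊆
      ↑((S N).filter fun n => ∀ p ∈ U, red (p ^ 2) (x n) ∉ Ω p) := by
    rintro n ⟨hn, hn'⟩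
    rw [Finset.mem_coe, Finset.mem_filter]
    exact ⟨hn, fun p hp hmem => hn' (hΩ p hp _ hmem)⟩
  have h4 : ({n : ℕ | n ∈ S N ∧ ¬ G (x n)}.ncard : ℝ) ≤
      (((S N).filter fun n => ∀ p ∈ U, red (p ^ 2) (x n) ∉ Ω p).card : ℝ) := by
    have := Set.ncard_le_ncard hsub (Finset.finite_toSet _)
    rw [Set.ncard_coe_finset] at this
    exact_mod_cast this
  refine h4.trans (h1.trans ?_)
  have h5 : (2 / (∑ p ∈ U, dens (Ω p)) + 4 / (2 * (H : ℝ) + 1)) ≤ ε := by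
    rw [hε'] at h2 h3
    linarith
  exact mul_le_mul_of_nonneg_right h5 (Nat.cast_nonneg _)

end Pool.Agent.N92.TH
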