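import Pool.Agent.N92.TH.Primes
import Pool.Agent.N92.TH.Emb
import Pool.Agent.N92.TH.Loc
import Pool.Agent.N92.TH.Thin

set_option autoImplicit false

/-! # Superelliptic curves with coefficients from thin sequences -/

namespace Pool.Agent.N92.TH

open Finset Polynomial WithZero NumberField IsDedekindDomain Pool.Agent.W858.SF Pool.Agent.W858.SG
open Pool.Agent.TH377.Sup Pool.Agent.N666.TM
open Pool.Agent.N666.VE (primes)

universe v w

/-- for every `B` there are primes with good classes of total density at least `B` -/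
theorem local_supply {R k : Type} [CommRing R] [IsDomain R] [CharZero R] [Algebra.FiniteType ℤ R]
    [Field k] [Algebra R k] [IsFractionRing R k] {J : Type} [Fintype J] [DecidableEq J]
    (e : J → R) (j₀ : J) (he : e j₀ ≠ 0) (d : ℕ) (hd : 3 ≤ d) (B : ℝ) :
    ∃ U : Finset ℕ, (∀ p ∈ U, p.Prime) ∧ ∃ Ω : ∀ p : ℕ, Set (Fin (d + 2) × J → ZMod (p ^ 2)),
      B ≤ ∑ p ∈ U, dens (Ω p) ∧ ∀ p ∈ U, ∀ c : Fin (d + 2) × J → ℤ,
        Pool.Agent.Y722.HS.red (p ^ 2) c ∈ Ω p → Good.{v, w} k (comb e c) := by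
  classical
  have hcz : CharZero k := charZero_of_injective_algebraMap (IsFractionRing.injective R k)
  obtain ⟨L, _, _, P, hPe, hemb⟩ := emb_fg (k := k) (e j₀) he
  obtain ⟨N1, hN1, hemb⟩ := hemb
  obtain ⟨Dr, hDr, hur⟩ := unram_ae L
  -- numerator and denominator of `P (e j₀)`
  obtain ⟨a, b, hb, hab⟩ := IsFractionRing.div_surjective (A := 𝓞 L) (P (e j₀))
  have hb0 : b ≠ 0 := nonZeroDivisors.ne_zero hb
  have ha0 : a ≠ 0 := by
    rintro rfl
    rw [map_zero, zero_div] at hab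
    exact hPe hab.symm
  have hD0 : N1 * Dr * 2 * a * b ≠ 0 :=
    mul_ne_zero (mul_ne_zero (mul_ne_zero (mul_ne_zero hN1 hDr) two_ne_zero) ha0) hb0
  have hd0 : (0 : ℝ) < d := by
    have : 0 < d := by omega
    exact_mod_cast this
  obtain ⟨U, hU, hUB⟩ := primes_deg_one L _ hD0 (8 * d * |B|)
  have hex : ∀ p ∈ U, ∃ Ω : Set (Fin (d + 2) × J → ZMod (p ^ 2)),
      (1 / (4 * d)) * (1 / (p : ℝ) - 1 / (p : ℝ) ^ 2) ≤ dens Ω ∧
      ∀ x : Fin (d + 2) × J → ℤ, Pool.Agent.Y722.HS.red (p ^ 2) x ∈ Ω →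
        Good.{v, w} k (comb e x) := by
    intro p hp
    obtain ⟨hpp, v, hvN, hvD⟩ := hU p hp
    have v5 : b ∉ v.asIdeal := fun h => hvD (Ideal.mul_mem_left _ _ h)
    have v4 : a ∉ v.asIdeal := fun h => hvD (Ideal.mul_mem_right _ _ (Ideal.mul_mem_left _ _ h))
    have v3 : (2 : 𝓞 L) ∉ v.asIdeal := fun h =>
      hvD (Ideal.mul_mem_right _ _ (Ideal.mul_mem_right _ _ (Ideal.mul_mem_left _ _ h)))
    have v2 : Dr ∉ v.asIdeal := fun h => hvD (Ideal.mul_mem_right _ _ (Ideal.mul_mem_right _ _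
      (Ideal.mul_mem_right _ _ (Ideal.mul_mem_left _ _ h))))
    have v1 : N1 ∉ v.asIdeal := fun h => hvD (Ideal.mul_mem_right _ _ (Ideal.mul_mem_right _ _
      (Ideal.mul_mem_right _ _ (Ideal.mul_mem_right _ _ h))))
    obtain ⟨hint, ψ, hψ⟩ := hemb v v1
    refine exists_omega.{v, w} P v hint ψ hψ v3 p hpp hvN (hur v v2 p hpp) e j₀ ?_ d hd
    rw [← hab, map_div₀, (HeightOneSpectrum.valuation_eq_one_iff_notMem v).2 v4,
      (HeightOneSpectrum.valuation_eq_one_iff_notMem v).2 v5, div_one]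
  choose! Ω hΩ1 hΩ2 using hex
  refine ⟨U, fun p hp => (hU p hp).1, Ω, ?_, hΩ2⟩
  have h1 : ∀ p ∈ U, 1 / (8 * d) * (1 / (p : ℝ)) ≤ dens (Ω p) := by
    intro p hp
    refine le_trans ?_ (hΩ1 p hp)
    have hp2 : (2 : ℝ) ≤ p := by exact_mod_cast (hU p hp).1.two_le
    have h3 : 1 / (2 * (p : ℝ)) ≤ 1 / (p : ℝ) - 1 / (p : ℝ) ^ 2 := by
      rw [div_sub_div _ _ (by positivity) (by positivity),
        div_le_div_iff₀ (by positivity) (by positivity)]
      nlinarith [mul_nonneg (sub_nonneg.mpr hp2) (by positivity : (0 : ℝ) ≤ (p : ℝ) ^ 2)]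
    calc 1 / (8 * d) * (1 / (p : ℝ)) = (1 / (4 * d)) * (1 / (2 * (p : ℝ))) := by
          field_simp; norm_num
      _ ≤ _ := mul_le_mul_of_nonneg_left h3 (by positivity)
  calc B ≤ |B| := le_abs_self B
    _ = 1 / (8 * d) * (8 * d * |B|) := by field_simp
    _ ≤ 1 / (8 * d) * ∑ p ∈ U, 1 / (p : ℝ) := mul_le_mul_of_nonneg_left hUB (by positivity)
    _ = ∑ p ∈ U, 1 / (8 * d) * (1 / (p : ℝ)) := Finset.mul_sum _ _ _
    _ ≤ _ := Finset.sum_le_sum h1

/-- the coefficients from the thin sequences -/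
noncomputable def cvec {R : Type} [CommRing R] {J : Type} [Fintype J] (e : J → R)
    (F : ℕ → J → Finset ℝ) (a : ℕ → J → ℝ → ℝ) (d t : ℕ) : Fin (d + 2) → R :=
  fun i => ∑ j, ((⌊∑ x ∈ F i j, a i j x * (t : ℝ) ^ x⌋ : ℤ) : R) * e j

theorem main {R : Type} [CommRing R] [IsDomain R] [CharZero R] [Algebra.FiniteType ℤ R]
    (k : Type) [Field k] [Algebra R k] [IsFractionRing R k] {J : Type} [Fintype J] [DecidableEq J]
    (e : J → R) (j₀ : J) (he : e j₀ ≠ 0) (F : ℕ → J → Finset ℝ) (a : ℕ → J → ℝ → ℝ)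
    (c : ℕ → J → ℝ)
    (h : ∀ i j, c i j ∈ F i j ∧ (∀ t ∈ F i j, t ≤ c i j) ∧ 0 < c i j ∧ (∀ m : ℕ, c i j ≠ m) ∧
      0 < a i j (c i j))
    (hc : Function.Injective (fun z : ℕ × J => c z.1 z.2)) :
    ∃ E : Set ℕ, NullIn (fun N => Ioc N (2 * N)) E ∧ NullIn primes E ∧
      ∀ d : ℕ, 3 ≤ d → {t : ℕ | t ∉ E ∧ ¬ Good.{v, w} k (cvec e F a d t)}.Finite := by
  classical
  set Ek : ℕ → Set ℕ := fun K => {t | ∃ d, 3 ≤ d ∧ d ≤ K ∧ ¬ Good.{v, w} k (cvec e F a d t)}
    with hEk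
  have hmono : Monotone Ek := by
    intro K K' hK t ht
    obtain ⟨d, h1, h2, h3⟩ := ht
    exact ⟨d, h1, h2.trans hK, h3⟩
  -- one degree
  have hone : ∀ d, 3 ≤ d →
      NullIn (fun N => Ioc N (2 * N)) {t | ¬ Good.{v, w} k (cvec e F a d t)} ∧
      NullIn primes {t | ¬ Good.{v, w} k (cvec e F a d t)} := by
    intro d hd
    have : Nonempty (Fin (d + 2) × J) := ⟨(0, j₀)⟩
    obtain ⟨⟨κ₁, hκ₁, g₁⟩, ⟨κ₂, hκ₂, g₂⟩⟩ := fl_well (ι := Fin (d + 2) × J)
      (F := fun z => F z.1 z.2) (a := fun z => a z.1 z.2) (c := fun z => c z.1 z.2)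
      (fun z => h z.1 z.2) (by
        rintro ⟨i, j⟩ ⟨i', j'⟩ hzz
        have h1 := @hc (i.val, j) (i'.val, j') hzz
        rw [Prod.mk.injEq] at h1 ⊢
        exact ⟨Fin.ext h1.1, h1.2⟩)
    have hcomb : ∀ t : ℕ, cvec e F a d t = comb e
        (fl (fun z : Fin (d + 2) × J => F z.1 z.2) (fun z => a z.1 z.2) t) := by
      intro t
      funext i
      rfl
    have hsup := local_supply.{v, w} (k := k) e j₀ he d hd
    constructor
    · intro ε hε
      obtain ⟨N₀, hN₀⟩ := thin_dens hκ₁ g₁ (fun x => Good.{v, w} k (comb e x)) hsup ε hε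
      refine ⟨N₀, fun N hN => le_trans (le_of_eq ?_) (hN₀ N hN)⟩
      simp only [hcomb, Set.mem_ofPred_eq]
    · intro ε hε
      obtain ⟨N₀, hN₀⟩ := thin_dens hκ₂ g₂ (fun x => Good.{v, w} k (comb e x)) hsup ε hε
      refine ⟨N₀, fun N hN => le_trans (le_of_eq ?_) (hN₀ N hN)⟩
      simp only [hcomb, Set.mem_ofPred_eq]
  -- finitely many degrees
  have hunion : ∀ (S : ℕ → Finset ℕ),
      (∀ d, 3 ≤ d → NullIn S {t | ¬ Good.{v, w} k (cvec e F a d t)}) → ∀ K, NullIn S (Ek K) := by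
    intro S hS K
    induction K with
    | zero =>
      intro ε hε
      refine ⟨0, fun N _ => ?_⟩
      have h1 : {t : ℕ | t ∈ S N ∧ t ∈ Ek 0} = ∅ := by
        ext t
        simp only [hEk, Set.mem_ofPred_eq, Set.mem_empty_iff_false, iff_false]
        rintro ⟨-, d, h1, h2, -⟩
        omega
      rw [h1, Set.ncard_empty]
      simp only [Nat.cast_zero]
      positivity
    | succ K ih =>
      intro ε hε
      by_cases hK : 3 ≤ K + 1
      · obtain ⟨N₁, h1⟩ := ih (ε / 2) (by positivity)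
        obtain ⟨N₂, h2⟩ := hS (K + 1) hK (ε / 2) (by positivity)
        refine ⟨max N₁ N₂, fun N hN => ?_⟩
        have h3 := h1 N ((le_max_left _ _).trans hN)
        have h4 := h2 N ((le_max_right _ _).trans hN)
        have hsub : {t : ℕ | t ∈ S N ∧ t ∈ Ek (K + 1)} ⊆ {t : ℕ | t ∈ S N ∧ t ∈ Ek K} ∪
            {t : ℕ | t ∈ S N ∧ t ∈ {t | ¬ Good.{v, w} k (cvec e F a (K + 1) t)}} := by
          rintro t ⟨ht, d, h5, h6, h7⟩
          rcases Nat.lt_or_ge K d with h8 | h8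
          · right
            have : d = K + 1 := by omega
            subst this
            exact ⟨ht, h7⟩
          · left
            exact ⟨ht, d, h5, h8, h7⟩
        have hfin : ({t : ℕ | t ∈ S N ∧ t ∈ Ek K} ∪
            {t : ℕ | t ∈ S N ∧ t ∈ {t | ¬ Good.{v, w} k (cvec e F a (K + 1) t)}}).Finite :=
          (Finset.finite_toSet (S N)).subset (by
            rintro t (ht | ht)
            · exact ht.1
            · exact ht.1)
        have h5 : ({t : ℕ | t ∈ S N ∧ t ∈ Ek (K + 1)}.ncard : ℝ) ≤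
            ({t : ℕ | t ∈ S N ∧ t ∈ Ek K}.ncard : ℝ) +
            ({t : ℕ | t ∈ S N ∧ t ∈ {t | ¬ Good.{v, w} k (cvec e F a (K + 1) t)}}.ncard : ℝ) := by
          have := (Set.ncard_le_ncard hsub hfin).trans (Set.ncard_union_le _ _)
          exact_mod_cast this
        linarith
      · obtain ⟨N₁, h1⟩ := ih ε hε
        refine ⟨N₁, fun N hN => le_trans (le_of_eq ?_) (h1 N hN)⟩
        congr 2
        ext t
        simp only [hEk, Set.mem_ofPred_eq]
        constructor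
        · rintro ⟨ht, d, h5, h6, h7⟩
          omega
        · rintro ⟨ht, d, h5, h6, h7⟩
          omega
  obtain ⟨E, h1, h2, h3⟩ := diag hmono (fun N => Finset.Subset.refl _)
    (fun N => Finset.filter_subset _ _) (hunion _ fun d hd => (hone d hd).1)
    (hunion _ fun d hd => (hone d hd).2)
  refine ⟨E, h1, h2, fun d hd => (h3 d).subset ?_⟩
  rintro t ⟨ht, ht'⟩
  exact ⟨⟨d, hd, le_rfl, ht'⟩, ht⟩

end Pool.Agent.N92.TH
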