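import Pool.Agent.TH120.Sec.Supply
import Pool.Agent.TH120.Sec.ExL

set_option autoImplicit false

/-! # Prime numbers with a prime of degree one of a number field above them -/

namespace Pool.Agent.N92.TH

open Polynomial NumberField IsDedekindDomain
open Pool.Agent.W401.Cheb Pool.Agent.TH120.Sec

/-- the sum of `1 / p` over the prime numbers `p` for which there is a prime `v` of norm `p`, not
containing `D`, is infinite -/
theorem primes_deg_one (K : Type) [Field K] [NumberField K] (D : 𝓞 K) (hD : D ≠ 0) (B : ℝ) :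
    ∃ U : Finset ℕ, (∀ p ∈ U, p.Prime ∧ ∃ v : HeightOneSpectrum (𝓞 K),
      Ideal.absNorm v.asIdeal = p ∧ D ∉ v.asIdeal) ∧ B ≤ ∑ p ∈ U, 1 / (p : ℝ) := by
  classical
  obtain ⟨L, _, _, _, i, τ, κ, hκi, hκτ, -⟩ := exists_L K ∅ Set.finite_empty AlgEquiv.refl
  have hτ : ∀ x, τ x = x := by
    intro x
    apply κ.injective
    rw [hκτ]
    rfl
  let iO : 𝓞 K →+* 𝓞 L := RingOfIntegers.mapRingHom i
  have hiO : ∀ x, ((iO x : 𝓞 L) : L) = i x := fun x => rfl
  have hiinj : Function.Injective iO := by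
    intro x y hxy
    have h1 : (iO x : L) = iO y := by rw [hxy]
    rw [hiO, hiO] at h1
    exact RingOfIntegers.coe_injective (i.injective h1)
  have hsmul : ∀ x : 𝓞 L, ((τ • x : 𝓞 L) : L) = τ x := fun x => rfl
  have hτO : ∀ x, τ • (iO x) = iO x := by
    intro x
    apply RingOfIntegers.ext
    rw [hsmul, hτ]
  have hE : iO D ≠ 0 := by
    rw [Ne, map_eq_zero_iff iO hiinj]
    exact hD
  obtain ⟨m, hm, hm'⟩ := Pool.Agent.W723.SecC.nz L _ hE
  obtain ⟨δ', C', hδpos, hcount⟩ := Pool.Agent.W723.SecC.count L τ m hm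
  have hdiv := Pool.Agent.W723.SecC.diverge _ δ' C' hδpos hcount
  have hS : ∀ p ∈ Pool.Agent.W723.SecC.frobSet L τ m, p.Prime ∧
      ∃ v : HeightOneSpectrum (𝓞 K), Ideal.absNorm v.asIdeal = p ∧ D ∉ v.asIdeal := by
    intro p hp
    obtain ⟨hpp, hpm, hxp⟩ := hp
    refine ⟨hpp, ?_⟩
    have : Fact p.Prime := ⟨hpp⟩
    have hex : ∃ φ : 𝓞 L →+* AlgebraicClosure (ZMod p), HasFrob p φ τ := by
      unfold xp at hxp
      rw [dif_pos hpp] at hxp
      by_contra h
      push Not at h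
      apply hxp
      rw [Nat.card_eq_zero]
      left
      exact ⟨fun x => h x.1 x.2⟩
    obtain ⟨φ, hφ⟩ := hex
    have hφE : φ (iO D) ≠ 0 := by
      refine hm' _ φ ?_
      intro h
      rw [CharP.cast_eq_zero_iff (AlgebraicClosure (ZMod p)) p] at h
      exact hpm h
    let ψ : 𝓞 K →+* AlgebraicClosure (ZMod p) := φ.comp iO
    have hψ : ∀ x, ψ x ^ p = ψ x := by
      intro x
      have h1 := hφ (iO x)
      rw [hτO] at h1
      exact h1.symm
    have hnorm := Pool.Agent.W723.SecC.absNorm_ker K p (AlgebraicClosure (ZMod p)) ψ hψ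
    have hprime : (RingHom.ker ψ).IsPrime := RingHom.ker_isPrime ψ
    have hbot : RingHom.ker ψ ≠ ⊥ := by
      intro h
      rw [h, Ideal.absNorm_bot] at hnorm
      exact hpp.ne_zero hnorm.symm
    refine ⟨⟨RingHom.ker ψ, hprime, hbot⟩, hnorm, ?_⟩
    intro h
    exact hφE (RingHom.mem_ker.mp h)
  obtain ⟨N, hN⟩ := hdiv B
  refine ⟨(Finset.range N).filter (fun n => n ∈ Pool.Agent.W723.SecC.frobSet L τ m), ?_, ?_⟩
  · intro p hp
    exact hS p (Finset.mem_filter.mp hp).2
  · refine hN.trans ?_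
    rw [Finset.sum_filter]
    refine Finset.sum_le_sum fun n _ => ?_
    by_cases hnS : n ∈ Pool.Agent.W723.SecC.frobSet L τ m
    · rw [Set.indicator_of_mem hnS, if_pos hnS, one_mul]
      have h3 : (0 : ℝ) < n := by exact_mod_cast (hS n hnS).1.pos
      apply one_div_le_one_div_of_le h3
      linarith
    · rw [Set.indicator_of_notMem hnS, if_neg hnS, zero_mul]

end Pool.Agent.N92.TH
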